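import Pool.Agent.H549R2.PM10

/-!
# Perfect matchings of interval graphs are as hard as `#P`

`intervalGraph l` is the intersection graph of the list `l` of closed intervals with natural
endpoints, `pm l` the number of its perfect matchings, `IsSplit` says that the vertex set of a
graph is the union of a clique and an independent set, `pmSplit` is `pm` restricted to the interval
graphs that are split graphs (`Pool/Agent/H549R2/PM8.lean`, `PM10.lean`).  `SharpP`, `SharpPHard`
and `FP` are defined in `Pool/Agent/H527R2/SharpP.lean`, `PolyTime` is Mathlib's notion of
polynomial time on Turing machines.

The proof is an explicit nonadaptive reduction from the number of satisfying assignments of a CNF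
formula which applies twice the following fact: if `P - N = M` is a product of `s` variables times
a polynomial with constant term `κ` for each of finitely many pairs of products of linear forms
with constant term `1`, then the coefficient of a multilinear monomial of degree `s * q` in
`(∏ P - ∏ N) ^ q = ∑ t, (-1) ^ (q - t) * q.choose t * (∏ P) ^ t * (∏ N) ^ (q - t)` is the
coefficient in `κ ^ q * (∑ M) ^ q`; each summand on the left hand side is a permanent with a block
of columns of ones.
-/

namespace Pool.Agent.Results.MP_381749_lc.IntervalSplitMatchings

open Pool.Agent.NPC Pool.Agent.NPC.Cnt Pool.Agent.H549R2.PM Pool.Agent.NPC.H549PM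

/-- **Main theorem.** Counting the perfect matchings of interval graphs is in `#P` and `#P`-hard
under polynomial-time Turing reductions, even for interval graphs that are split graphs; and
`#P ⊆ FP` iff some polynomial-time function computes the number of perfect matchings of all
interval graphs that are split graphs. -/
theorem result :
    SharpP (strFn pm) ∧ SharpPHard (strFn pm) ∧ SharpPHard (strFn pmSplit) ∧
    ((∀ f : List Bool → ℕ, SharpP f → FP f) ↔
      ∃ g : List Bool → List Bool, PolyTime g ∧
        ∀ l : List (ℕ × ℕ), IsSplit (intervalGraph l) → g (bits l) = (pm l).bits) :=
  ⟨sharpP_pm, hard_pm, hard_pmSplit, fp_iff_split⟩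

end Pool.Agent.Results.MP_381749_lc.IntervalSplitMatchings
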