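import Mathlib
import Pool.Agent.H870R2.LS.PFinal2
import Pool.Agent.H870R2.LS.PSym

/-! Networks which decide whether 7 divides the number of perfect matchings of a bipartite graph, and
which are symmetric under the 3-cycles inside disjoint blocks of four indices. -/

namespace Pool.Agent.H870R2.PC

open H522R2.LS

/-- **Locally symmetric networks for counting perfect matchings.** -/
theorem _root_.Pool.Agent.Results.MP_381749_lc.LocalSymmetry.result :
    -- (1) lower bound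
    (∀ (K Ω : Type) (_ : Fintype Ω) (_ : DecidableEq Ω) (r : ℕ) (β : Fin r × Fin 4 ↪ Ω)
      (C : PNet (Ω × Ω) K) (acc : Set K),
      C.Decides acc {A | ∀ v, A v = 0 ∨ A v = 1} (fun A => 7 ∣ perN A) →
      (∀ (v : Fin r) (x y z : Fin 4), x ≠ y → y ≠ z → x ≠ z →
        C.SymmUnder (H522R2.LS.diag (cyc (β (v, x)) (β (v, y)) (β (v, z))))) →
      2 ^ (r / 7200) ≤ Fintype.card C.G) ∧
    -- (2) converse
    (∀ (K Ω : Type) (_ : Fintype Ω) (_ : DecidableEq Ω) (r : ℕ) (β : Fin r × Fin 4 ↪ Ω)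
      (C : PNet (Ω × Ω) K) (enc : ℕ → K),
      (∀ A : Ω × Ω → ℕ, (∀ v, A v = 0 ∨ A v = 1) → C.val A C.out = enc (perN A)) →
      ∃ C' : PNet (Ω × Ω) K,
        (∀ A : Ω × Ω → ℕ, (∀ v, A v = 0 ∨ A v = 1) → C'.val A C'.out = enc (perN A)) ∧
        (∀ g : Equiv.Perm Ω, Preserves β g → C'.SymmUnder (H522R2.LS.diag g)) ∧
        Fintype.card C'.G = 24 ^ r * Fintype.card C.G + 1 ∧
        (∀ g', g' ≠ C'.out → ∃ g, C'.F g' = C.F g) ∧
        ∀ (o : Option ℕ) (k : K) (n : ℕ), 0 < n → C'.F C'.out o (n • ({k} : Multiset K)) = k) := by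
  refine ⟨?_, ?_⟩
  · intro K Ω _ _ r β C acc hC hsym
    exact lower_net2 β C hC hsym
  · intro K Ω _ _ r β C enc hC
    exact exists_symm β C enc {A | ∀ v, A v = 0 ∨ A v = 1} (fun A hA π v => hA _) hC

end Pool.Agent.H870R2.PC
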