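import Pool.Agent.H564R3.AP.Main

/-!
Randomised approximate counting of perfect matchings by pure programs.
-/

set_option autoImplicit false

namespace Pool.Agent.Results.MP_381749_lc.RandomApproxPermanent

open Pool.Agent.H564R3.PW (Instr)
open Pool.Agent.H564R3.AP (RandomApprox random_perm)
open scoped NNReal

/-- **No fully pure randomised approximation of the permanent.** -/
theorem result (n : ℕ) (hn : 2 ≤ n) (ρ : Type) [DecidableEq ρ] (Λ : Type) [Fintype Λ] (e : ℝ)
    (r : ℝ≥0) (q : Λ → ℝ) (p : Λ → List (Instr ℝ≥0 (Fin n × Fin n) ρ)) (o : ρ)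
    (h : RandomApprox e r q p o) (T : ℕ) (hT : ∀ l, (p l).length ≤ T) :
    (1 - 2 * e) * 2 ^ n ≤ ((n + 1) * T : ℝ) :=
  random_perm e r q p o h T hT hn

end Pool.Agent.Results.MP_381749_lc.RandomApproxPermanent
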