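import Pool.Agent.H549R2.UI.M3

/-!
# Perfect matchings of unit interval graphs are as hard as `#P`

`intervalGraph l` is the intersection graph of the list `l` of closed intervals with natural
endpoints and `pm l` the number of its perfect matchings (`Pool/Agent/H549R2/PM8.lean`).
`SameLen l` says that all intervals of the list have the same length
(`Pool/Agent/H549R2/UI/Defs.lean`); the graphs of these lists are the unit interval graphs, also
known as proper interval graphs or indifference graphs.  `pmUnit` is `pm` on the lists with
`SameLen` and `0` on the other lists (`Pool/Agent/H549R2/UI/M3.lean`).  `SharpP`, `SharpPHard` and
`FP` are defined in `Pool/Agent/H527R2/SharpP.lean`, `PolyTime` is Mathlib's notion of polynomial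
time on Turing machines.

Idea of the proof.  A word `x_1 x_2 ⋯` over the natural numbers defines a unit interval graph: the
vertices are the letters, and an earlier letter `x` is adjacent to a later letter `z` iff
`x = z` or `x = z + 1`.  Its number of perfect matchings is the constant coefficient of a product
of the operators `y_x + y_(x+1) + ∂_x`.

* Put `M` copies of each even letter at the beginning of the word.  The number of perfect
  matchings divided by `((M - 1)!!) ^ J` is a polynomial in `M`.  Its value at `M = -1` is the
  expectation with respect to a Gaussian of imaginary width, and integration by parts shows that
  it is, up to sign, the number of perfect matchings of the word in which only odd letters `x` are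
  matched with later even letters `x - 1` and `x + 1`.
* In these bipartite words the odd letters multiply by `y_b + y_(b+1)` and the even letters
  differentiate.  A block of `N` rows followed by `N` columns, divided by `N!`, is the operator
  `∑ k, N.choose k / k! * (y_b + y_(b+1)) ^ k * ∂ ^ k`, a polynomial in `N` on the states of bounded
  degree.  Its values at `N = -1` and `N = -2` are a substitution and a substitution with a
  correction; three of these operators give the exact crossing `y ↦ 3 y + 2 z`, `z ↦ -y` of two
  neighbouring variables, with which the product of the linear forms of the rows of an arbitrary
  0-1 matrix is written, variable after variable, into every third variable.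

The files in `Pool/Agent/H549R2/UI` were written together with helpers 35, 75, 132, 143, 251, 265,
434, 467, 541, 579, 692, 726, 854, 856 and 971 of the team.
-/

namespace Pool.Agent.Results.MP_381749_lc.UnitIntervalMatchings

open Pool.Agent.NPC Pool.Agent.NPC.Cnt Pool.Agent.H549R2.PM Pool.Agent.H549R2.UI
open Pool.Agent.NPC.H549UI

/-- **Main theorem.** Counting the perfect matchings of unit interval graphs is `#P`-complete under
polynomial-time Turing reductions; and `#P ⊆ FP` iff some polynomial-time function computes the
number of perfect matchings of all unit interval graphs, given by intervals of the same length. -/
theorem result :
    SharpP (strFn pmUnit) ∧ SharpPHard (strFn pmUnit) ∧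
    ((∀ f : List Bool → ℕ, SharpP f → FP f) ↔
      ∃ g : List Bool → List Bool, PolyTime g ∧
        ∀ l : List (ℕ × ℕ), SameLen l → g (bits l) = (pm l).bits) :=
  ⟨sharpP_pmUnit, hard_pmUnit, fp_iff_unit⟩

end Pool.Agent.Results.MP_381749_lc.UnitIntervalMatchings
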